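import Pool.Agent.AEN.Stmts

/-!
# AEN, row MON (helper6)
-/

set_option autoImplicit false

open MeasureTheory ProbabilityTheory Function Filter

open scoped ENNReal BigOperators InnerProductSpace Topology

noncomputable section

namespace Pool.Agent.AEN.H6

open Pool.Agent.Anderson Pool.Agent.Loc Pool.Agent.Helper54.Bal

theorem mon : MonStmt := by
  intro d V E f a b ha hab
  have hb : 0 < b := lt_of_lt_of_le ha hab
  have hza : (zz a E).im ≠ 0 := by rw [zz_im]; exact ha.ne'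
  have hzb : (zz b E).im ≠ 0 := by rw [zz_im]; exact hb.ne'
  set g := G V (zz b E) f with hg
  set k := G V (zz a E) g with hk
  have h1 : G V (zz a E) f = g + (zz a E - zz b E) • k := by
    have h := (isRes_G V).ident_apply hza hzb f
    rw [hk, hg, ← h]
    abel
  have h2 : (⟪g, k⟫_ℂ).im = a * ‖k‖ ^ 2 := by
    have h := (isRes_G V).im_inner hza g
    rw [zz_im] at h
    exact h
  have hz : zz a E - zz b E = -((b - a : ℝ) : ℂ) * Complex.I := by
    unfold zz
    push_cast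
    ring
  have h3 : ‖G V (zz a E) f‖ ^ 2 = ‖g‖ ^ 2 + 2 * RCLike.re ⟪g, (zz a E - zz b E) • k⟫_ℂ +
      ‖(zz a E - zz b E) • k‖ ^ 2 := by
    rw [h1]
    exact norm_add_sq (𝕜 := ℂ) g _
  have h4 : RCLike.re ⟪g, (zz a E - zz b E) • k⟫_ℂ = (b - a) * (a * ‖k‖ ^ 2) := by
    rw [inner_smul_right, hz, ← h2]
    simp
    ring
  have h5 : 0 ≤ (b - a) * (a * ‖k‖ ^ 2) :=
    mul_nonneg (sub_nonneg.2 hab) (mul_nonneg ha.le (sq_nonneg _))
  have h6 : ‖g‖ ^ 2 ≤ ‖G V (zz a E) f‖ ^ 2 := by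
    rw [h3, h4]
    have := sq_nonneg ‖(zz a E - zz b E) • k‖
    linarith
  exact le_of_sq_le_sq h6 (norm_nonneg _)

end Pool.Agent.AEN.H6
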